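import Pool.Agent.Y508.FP.All

/-!
# Farthest points on closed curves of length `π`

Let `C` be a closed curve of length `π` in `ℝ^d` and for `x ∈ C` let `δ x` be the distance from `x` to a
farthest point of `C`. Let `m` be the minimum and `M` the maximum of `δ` over `C`. Then
`m + ((M - m) / 4) ^ 5 ≤ 1`, and `m = 1` if and only if `C` is the relative boundary of a plane convex body
of constant width `1`. This is the question Q1 of the problem, in every dimension, with a quantitative
inequality.

Ideas of the proof. (1) Majorization: a closed polygon in `ℝ^d` is replaced by a closed polygon in the plane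
with edges which are not longer, chords which are not shorter, and no linear functional having four
alternating values on it (a maximizer of a product of squared chords; if a functional alternates, an explicit
first order deformation into a new dimension, rigid on four arcs, increases the product). In the limit a
compact set `T` of the plane is obtained which contains the boundary of its convex hull `K`, the perimeter of
`K` is at most the length of `C`, and a map from `T` onto `C` does not increase distances; so every boundary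
point of `K` has a point of `K` at distance `≥ m`.
(2) Plane convex bodies, `m = 1` after scaling: the set `D` of the points at distance `≤ 1` from all the
points of `K` is contained in `K`. With the width defect `g = 1 - w_D ≥ |w_K - 1|`, whose minimum is
`1 - cos y`, one has `per K - π = R + ½ ∫ (g'² - g²)`, where the second term is at least
`-2 (y - sin y cos y) + (max g - y)³ / 7` by comparison with an explicit function, and
`R ≥ 4 (sin y - y cos y)` is estimated by the arcs of the unit circle missed by `D - K`. Hence
`|w_K - 1|⁵ ≤ 320 (per K - π)`.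
(3) If `per K = π` then the map `T → C` gives a curve on the unit sphere of speed at most one from a point to
its antipode, hence a great semicircle, so all the unit vectors of a plane are differences of two points of
`C`, and the Crofton inequality shows that `C` is a plane curve of constant width.
-/

set_option autoImplicit false

namespace Pool.Agent.Results.MP_30679c_gt.FarthestPoint

open Set

/-- `δ x`: the supremum of the distances from `x` to the points of `C` (attained for compact `C`) -/
noncomputable def farthest {d : ℕ} (C : Set (EuclideanSpace ℝ (Fin d)))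
    (x : EuclideanSpace ℝ (Fin d)) : ℝ := sSup ((fun y => dist x y) '' C)

/-- `C` is the relative boundary of a plane convex body of constant width one: the image of the boundary of
a compact convex set `K` of the plane under an isometric affine map `ι` from the plane to `ℝ^d`, where the
width `sup ⟨v, x⟩ - inf ⟨v, x⟩` (`x ∈ K`) is `1` for every unit vector `v` -/
def ConstantWidthBoundary {d : ℕ} (C : Set (EuclideanSpace ℝ (Fin d))) : Prop :=
  ∃ (ι : EuclideanSpace ℝ (Fin 2) →ᵃⁱ[ℝ] EuclideanSpace ℝ (Fin d))
    (K : Set (EuclideanSpace ℝ (Fin 2))), IsCompact K ∧ Convex ℝ K ∧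
    (∀ v : EuclideanSpace ℝ (Fin 2), ‖v‖ = 1 →
      sSup ((fun x => inner ℝ v x) '' K) - sInf ((fun x => inner ℝ v x) '' K) = (1 : ℝ)) ∧
    C = ι '' frontier K

/-- `C = γ ([0, 1])` is a closed curve of length `π` in `ℝ^d` -/
theorem result (d : ℕ) (γ : ℝ → EuclideanSpace ℝ (Fin d)) (hγ : ContinuousOn γ (Icc 0 1))
    (hclosed : γ 0 = γ 1) (hlen : eVariationOn γ (Icc 0 1) = ENNReal.ofReal Real.pi) :
    ∃ m M : ℝ, IsLeast (farthest (γ '' Icc 0 1) '' (γ '' Icc 0 1)) m ∧
      IsGreatest (farthest (γ '' Icc 0 1) '' (γ '' Icc 0 1)) M ∧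
      m + ((M - m) / 4) ^ 5 ≤ 1 ∧
      (m = 1 ↔ ConstantWidthBoundary (γ '' Icc 0 1)) := by
  obtain ⟨h1, h2⟩ := Pool.Agent.Y508.FP.main d γ hγ hclosed hlen
  have hC : IsCompact (γ '' Icc 0 1) := isCompact_Icc.image_of_continuousOn hγ
  have hne : (γ '' Icc 0 1).Nonempty := ⟨γ 0, 0, by simp, rfl⟩
  have hle : ∀ x, ∀ y ∈ γ '' Icc 0 1, dist x y ≤ farthest (γ '' Icc 0 1) x := by
    intro x y hy
    exact le_csSup (hC.image (continuous_const.dist continuous_id)).bddAbove ⟨y, hy, rfl⟩
  have hex : ∀ x, ∃ y ∈ γ '' Icc 0 1, farthest (γ '' Icc 0 1) x = dist x y := by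
    intro x
    obtain ⟨y, hy, h⟩ := hC.exists_sSup_image_eq hne
      (f := fun y => dist x y) (continuous_const.dist continuous_id).continuousOn
    exact ⟨y, hy, h⟩
  have hcont : Continuous (farthest (γ '' Icc 0 1)) := by
    apply LipschitzWith.continuous (K := 1)
    apply LipschitzWith.of_le_add
    intro x x'
    obtain ⟨y, hy, h⟩ := hex x
    rw [h]
    have h3 := hle x' y hy
    have h4 := dist_triangle x x' y
    linarith
  obtain ⟨x0, hx0, hmin⟩ := hC.exists_isMinOn hne hcont.continuousOn
  have hmin2 : ∀ x ∈ γ '' Icc 0 1, farthest (γ '' Icc 0 1) x0 ≤ farthest (γ '' Icc 0 1) x :=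
    fun x hx => hmin hx
  have hm : farthest (γ '' Icc 0 1) x0 ≤ 1 := by
    obtain ⟨x, hx, h3⟩ := h1
    obtain ⟨y, hy, h4⟩ := hex x
    have h5 := hmin2 x hx
    rw [h4] at h5
    exact h5.trans (h3 y hy)
  obtain ⟨x1, hx1, hmax⟩ := hC.exists_isMaxOn hne hcont.continuousOn
  refine ⟨farthest (γ '' Icc 0 1) x0, farthest (γ '' Icc 0 1) x1, ⟨⟨x0, hx0, rfl⟩, ?_⟩,
    ⟨⟨x1, hx1, rfl⟩, ?_⟩, ?_, ?_⟩
  · rintro _ ⟨x, hx, rfl⟩
    exact hmin2 x hx
  · rintro _ ⟨x, hx, rfl⟩
    exact hmax hx
  · obtain ⟨y1, hy1, h3⟩ := hex x1
    have h4 : farthest (γ '' Icc 0 1) x0 ≤ dist x1 y1 := by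
      rw [← h3]
      exact hmin2 x1 hx1
    have h0 : 0 ≤ farthest (γ '' Icc 0 1) x0 := dist_nonneg.trans (hle x0 x0 hx0)
    rw [h3]
    exact Pool.Agent.Y508.FP.main2 d γ hγ hclosed hlen _ h0 hm (fun x hx => by
      obtain ⟨y, hy, h5⟩ := hex x
      exact ⟨y, hy, h5 ▸ hmin2 x hx⟩) x1 hx1 y1 hy1 h4
  · have h3 : (farthest (γ '' Icc 0 1) x0 = 1) ↔
        ∀ x ∈ γ '' Icc 0 1, ∃ y ∈ γ '' Icc 0 1, 1 ≤ dist x y := by
      constructor
      · intro h x hx
        obtain ⟨y, hy, h4⟩ := hex x
        exact ⟨y, hy, h4 ▸ h.symm.le.trans (hmin2 x hx)⟩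
      · intro h
        apply le_antisymm hm
        obtain ⟨y, hy, h4⟩ := h x0 hx0
        exact h4.trans (hle x0 y hy)
    rw [h3]
    exact h2

end Pool.Agent.Results.MP_30679c_gt.FarthestPoint
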